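import Mathlib
import Pool.Agent.R439.S4E

set_option autoImplicit false

/-!
Three exact identities (WZ pairs) for the half-range sum of
`(205k^2+160k+32)(-1)^k C(2k,k)^5`.
-/

namespace Pool.Agent.R488.AZ

open Finset Pool.Agent.R439.PL.S4

/-! ### Apéry's identity -/

/-- the term `5 (-1)^n/(n^3 C(2n,n))` at `n + 1` -/
def ap (n : ℕ) : ℚ := 5 * (-1) ^ (n + 1) * ((n + 1).factorial : ℚ) ^ 2 /
  (((n : ℚ) + 1) ^ 3 * (2 * n + 2).factorial)

theorem apery (N : ℕ) : ∑ n ∈ range N, ap n = WW N - 2 * HH N 3 := by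
  induction N with
  | zero => simp [WW, HH]
  | succ N ih =>
    have h1 := aa_sum (N + 1) N (Nat.lt_succ_self N)
    rw [Nat.add_sub_cancel, sum_sub_distrib] at h1
    have e1 : N + 1 - N - 1 = 0 := by omega
    have e2 : N + 1 + N = 2 * N + 1 := by ring
    have h2 : aa (N + 1) (N + 1) = (-1) ^ (N + 1) * ((N + 1).factorial : ℚ) ^ 2 /
        (((N : ℚ) + 1) ^ 3 * (2 * N + 2).factorial) := by
      rw [aa, Nat.sub_self, show N + 1 + (N + 1) = 2 * N + 2 by ring]
      push_cast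
      simp
    have h3 : WW (N + 1) = ∑ k ∈ range N, aa (k + 1) (N + 1) + aa (N + 1) (N + 1) := by
      rw [WW, sum_range_succ]
    have h4 : WW N = ∑ k ∈ range N, aa (k + 1) N := rfl
    have h5 : HH (N + 1) 3 = HH N 3 + 1 / ((N : ℚ) + 1) ^ 3 := by rw [HH, sum_range_succ, ← HH]
    rw [sum_range_succ, ih, h3, h5, h2, h4]
    rw [e1, e2] at h1
    have h6 : ((2 * N + 2).factorial : ℚ) = (2 * N + 2) * (2 * N + 1).factorial := by
      rw [Nat.factorial_succ (2 * N + 1)]; push_cast; ring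
    have h7 : ((N + 1).factorial : ℚ) = (N + 1) * N.factorial := by
      rw [Nat.factorial_succ N]; push_cast; ring
    have h8 : ap N = 5 * ((-1) ^ (N + 1) * ((N + 1).factorial : ℚ) ^ 2 /
        (((N : ℚ) + 1) ^ 3 * (2 * N + 2).factorial)) := by rw [ap]; ring
    rw [h8]
    push_cast at h1
    have h9 : ((2 * N + 1).factorial : ℚ) ≠ 0 := by positivity
    have h10 : ((N : ℚ) + 1) ≠ 0 := by positivity
    have h11 : (2 * (N : ℚ) + 2) ≠ 0 := by positivity
    have h12 : 4 * ((-1) ^ (N + 1) * ((N + 1).factorial : ℚ) ^ 2 /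
        (((N : ℚ) + 1) ^ 3 * (2 * N + 2).factorial)) = - (2 * (-1) ^ N * (N.factorial : ℚ) ^ 2 /
        (((N : ℚ) + 1) ^ 2 * (2 * N + 1).factorial)) := by
      rw [h6, h7, pow_succ]
      field_simp
      ring
    simp only [Nat.factorial_zero, Nat.cast_one, mul_one] at h1
    linear_combination h12 - h1

/-! ### The identity that links the two series -/

def DD (n j : ℕ) : ℚ := (-1) ^ (n + 1) * (n.factorial : ℚ) ^ 6 * (j.factorial : ℚ) ^ 4 *
  (n + 2 * j + 2) / ((2 * n).factorial * ((n + j + 1).factorial : ℚ) ^ 4)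

/-- `E(n+1, j)` -/
def EE (n j : ℕ) : ℚ := (-1) ^ (n + 1) * ((n + 1).factorial : ℚ) ^ 6 * (j.factorial : ℚ) ^ 4 *
  (5 * ((n : ℚ) + 1) ^ 2 + 6 * (n + 1) * j + 2 * (j : ℚ) ^ 2) /
  (((n : ℚ) + 1) ^ 5 * (2 * n + 2).factorial * ((n + 1 + j).factorial : ℚ) ^ 4)

theorem DE (n j : ℕ) : DD (n + 1) j - DD n j = EE n (j + 1) - EE n j := by
  rw [DD, DD, EE, EE, show 2 * (n + 1) = 2 * n + 2 by ring, show n + 1 + j + 1 = n + j + 2 by ring,
    show n + 1 + (j + 1) = n + j + 2 by ring, show n + 1 + j = n + j + 1 by ring]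
  have h1 : ((n + j + 2).factorial : ℚ) = (n + j + 2) * (n + j + 1).factorial := by
    rw [Nat.factorial_succ (n + j + 1)]; push_cast; ring
  have h2 : ((2 * n + 2).factorial : ℚ) = (2 * n + 2) * ((2 * n + 1) * (2 * n).factorial) := by
    rw [Nat.factorial_succ (2 * n + 1), Nat.factorial_succ (2 * n)]; push_cast; ring
  have h3 : ((n + 1).factorial : ℚ) = (n + 1) * n.factorial := by
    rw [Nat.factorial_succ n]; push_cast; ring
  have h4 : ((j + 1).factorial : ℚ) = (j + 1) * j.factorial := by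
    rw [Nat.factorial_succ j]; push_cast; ring
  rw [h1, h2, h3, h4, pow_succ (-1 : ℚ) (n + 1)]
  have a1 : ((n + j + 1).factorial : ℚ) ≠ 0 := by positivity
  have a2 : ((2 * n).factorial : ℚ) ≠ 0 := by positivity
  have a3 : ((n : ℚ) + 1) ≠ 0 := by positivity
  have a4 : ((n : ℚ) + j + 2) ≠ 0 := by positivity
  have a5 : (2 * (n : ℚ) + 1) ≠ 0 := by positivity
  have a6 : (2 * (n : ℚ) + 2) ≠ 0 := by positivity
  push_cast
  generalize ((n + j + 1).factorial : ℚ) = A at a1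
  generalize ((2 * n).factorial : ℚ) = B at a2
  generalize (n.factorial : ℚ) = C
  generalize (j.factorial : ℚ) = D
  generalize ((-1 : ℚ)) ^ (n + 1) = s
  field_simp
  ring

/-- the fast series for `ζ(3)`, the term at `n + 1` -/
def TT (n : ℕ) : ℚ := (-1) ^ (n + 1) * (205 * ((n : ℚ) + 1) ^ 2 - 160 * (n + 1) + 32) *
  ((n + 1).factorial : ℚ) ^ 10 / (((n : ℚ) + 1) ^ 5 * ((2 * n + 2).factorial : ℚ) ^ 5)

theorem TT_eq (n : ℕ) : EE n n + DD (n + 1) n = TT n := by
  rw [DD, EE, TT, show 2 * (n + 1) = 2 * n + 2 by ring, show n + 1 + n + 1 = 2 * n + 2 by ring,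
    show n + 1 + n = 2 * n + 1 by ring]
  have h2 : ((2 * n + 2).factorial : ℚ) = (2 * n + 2) * (2 * n + 1).factorial := by
    rw [Nat.factorial_succ (2 * n + 1)]; push_cast; ring
  have h3 : ((n + 1).factorial : ℚ) = (n + 1) * n.factorial := by
    rw [Nat.factorial_succ n]; push_cast; ring
  rw [h2, h3, pow_succ (-1 : ℚ) (n + 1)]
  have a1 : ((2 * n + 1).factorial : ℚ) ≠ 0 := by positivity
  have a3 : ((n : ℚ) + 1) ≠ 0 := by positivity
  have a6 : (2 * (n : ℚ) + 2) ≠ 0 := by positivity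
  push_cast
  generalize ((2 * n + 1).factorial : ℚ) = A at a1
  generalize (n.factorial : ℚ) = C
  generalize ((-1 : ℚ)) ^ (n + 1) = s
  field_simp
  ring

theorem EE_zero (n : ℕ) : EE n 0 = ap n := by
  rw [EE, ap, add_zero]
  have h3 : ((n + 1).factorial : ℚ) ≠ 0 := by positivity
  have a3 : ((n : ℚ) + 1) ≠ 0 := by positivity
  have a2 : ((2 * n + 2).factorial : ℚ) ≠ 0 := by positivity
  simp only [Nat.factorial_zero, Nat.cast_one, Nat.cast_zero]
  field_simp
  ring

theorem link (N : ℕ) : ∑ n ∈ range N, TT n = ∑ n ∈ range N, ap n + ∑ j ∈ range N, DD N j := by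
  induction N with
  | zero => simp
  | succ N ih =>
    have h1 : ∑ j ∈ range N, (DD (N + 1) j - DD N j) = EE N N - EE N 0 := by
      rw [← sum_range_sub (fun j => EE N j)]
      exact sum_congr rfl fun j _ => DE N j
    rw [sum_sub_distrib] at h1
    rw [sum_range_succ, sum_range_succ (fun n => ap n), sum_range_succ (fun j => DD (N + 1) j), ih,
      ← TT_eq, ← EE_zero]
    linear_combination (-1) * h1

/-! ### The full-range identity -/

/-- `F(ν+1, k)` -/
def FH (ν k : ℕ) : ℚ := (-1) ^ k * ((2 * ν + 1).factorial : ℚ) ^ 3 * ((ν + k).factorial : ℚ) ^ 2 /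
  ((ν.factorial : ℚ) ^ 6 * (k.factorial : ℚ) ^ 3 * (2 * ν + 1 - k).factorial)

def GH (ν k : ℕ) : ℚ := -((-1) ^ k * ((2 * ν + 1).factorial : ℚ) ^ 3 *
  ((ν + k).factorial : ℚ) ^ 2 * (k : ℚ) ^ 3 *
  (30 * ((ν : ℚ) + 1) ^ 2 + 11 * (ν + 1) + (21 * (ν + 1) + 8) * k)) /
  ((ν.factorial : ℚ) ^ 6 * (k.factorial : ℚ) ^ 3 * (2 * ν + 3 - k).factorial * ((ν : ℚ) + 1) ^ 3)

theorem FG (k s : ℕ) : FH (k + s + 1) k - FH (k + s) k = GH (k + s) (k + 1) - GH (k + s) k := by
  have e1 : 2 * (k + s + 1) + 1 - k = k + 2 * s + 3 := by omega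
  have e2 : 2 * (k + s) + 1 - k = k + 2 * s + 1 := by omega
  have e3 : 2 * (k + s) + 3 - (k + 1) = k + 2 * s + 2 := by omega
  have e4 : 2 * (k + s) + 3 - k = k + 2 * s + 3 := by omega
  have e5 : 2 * (k + s + 1) + 1 = 2 * (k + s) + 3 := by ring
  have e6 : k + s + 1 + k = k + s + k + 1 := by ring
  have e7 : k + s + (k + 1) = k + s + k + 1 := by ring
  rw [FH, FH, GH, GH, e1, e2, e3, e4, e5, e6, e7]
  have h1 : ((k + 2 * s + 3).factorial : ℚ) = (k + 2 * s + 3) * ((k + 2 * s + 2) *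
      (k + 2 * s + 1).factorial) := by
    rw [Nat.factorial_succ (k + 2 * s + 2), Nat.factorial_succ (k + 2 * s + 1)]; push_cast; ring
  have h2 : ((k + 2 * s + 2).factorial : ℚ) = (k + 2 * s + 2) * (k + 2 * s + 1).factorial := by
    rw [Nat.factorial_succ (k + 2 * s + 1)]; push_cast; ring
  have h3 : ((2 * (k + s) + 3).factorial : ℚ) = (2 * (k + s) + 3) * ((2 * (k + s) + 2) *
      (2 * (k + s) + 1).factorial) := by
    rw [Nat.factorial_succ (2 * (k + s) + 2), Nat.factorial_succ (2 * (k + s) + 1)]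
    push_cast; ring
  have h4 : ((k + s + 1).factorial : ℚ) = (k + s + 1) * (k + s).factorial := by
    rw [Nat.factorial_succ (k + s)]; push_cast; ring
  have h5 : ((k + 1).factorial : ℚ) = (k + 1) * k.factorial := by
    rw [Nat.factorial_succ k]; push_cast; ring
  have h6 : ((k + s + k + 1).factorial : ℚ) = (k + s + k + 1) * (k + s + k).factorial := by
    rw [Nat.factorial_succ (k + s + k)]; push_cast; ring
  rw [h1, h2, h3, h4, h5, h6, pow_succ (-1 : ℚ) k]
  have a1 : ((k + 2 * s + 1).factorial : ℚ) ≠ 0 := by positivity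
  have a2 : ((k + s).factorial : ℚ) ≠ 0 := by positivity
  have a3 : (k.factorial : ℚ) ≠ 0 := by positivity
  have a4 : ((k : ℚ) + s + 1) ≠ 0 := by positivity
  have a5 : ((k : ℚ) + 1) ≠ 0 := by positivity
  have a6 : ((k : ℚ) + 2 * s + 3) ≠ 0 := by positivity
  have a7 : ((k : ℚ) + 2 * s + 2) ≠ 0 := by positivity
  push_cast
  generalize ((k + 2 * s + 1).factorial : ℚ) = A at a1
  generalize ((k + s).factorial : ℚ) = B at a2
  generalize (k.factorial : ℚ) = C at a3
  generalize ((2 * (k + s) + 1).factorial : ℚ) = D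
  generalize ((k + s + k).factorial : ℚ) = E
  generalize ((-1 : ℚ)) ^ k = t
  field_simp
  ring

/-- the summand -/
def sm (k : ℕ) : ℚ := (205 * (k : ℚ) ^ 2 + 160 * k + 32) * (-1) ^ k * ((2 * k).choose k : ℚ) ^ 5

theorem choose_fac (k : ℕ) : ((2 * k).choose k : ℚ) = (2 * k).factorial / (k.factorial : ℚ) ^ 2 := by
  have h1 := Nat.choose_mul_factorial_mul_factorial (show k ≤ 2 * k by omega)
  rw [show 2 * k - k = k by omega] at h1
  have h2 : ((2 * k).choose k : ℚ) * k.factorial * k.factorial = (2 * k).factorial := by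
    exact_mod_cast h1
  have h3 : (k.factorial : ℚ) ≠ 0 := by positivity
  field_simp
  linear_combination h2

theorem top_step (ν : ℕ) : 32 * (FH (ν + 1) (ν + 1) + GH ν (ν + 1)) = sm (ν + 1) := by
  have e1 : 2 * (ν + 1) + 1 - (ν + 1) = ν + 2 := by omega
  have e3 : 2 * ν + 3 - (ν + 1) = ν + 2 := by omega
  have e5 : 2 * (ν + 1) + 1 = 2 * ν + 3 := by ring
  have e6 : ν + 1 + (ν + 1) = 2 * ν + 2 := by ring
  have e7 : ν + (ν + 1) = 2 * ν + 1 := by ring
  have e8 : 2 * (ν + 1) = 2 * ν + 2 := by ring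
  rw [sm, choose_fac, FH, GH, e1, e3, e5, e6, e7, e8]
  have h3 : ((2 * ν + 3).factorial : ℚ) = (2 * ν + 3) * ((2 * ν + 2) *
      (2 * ν + 1).factorial) := by
    rw [Nat.factorial_succ (2 * ν + 2), Nat.factorial_succ (2 * ν + 1)]
    push_cast; ring
  have h4 : ((2 * ν + 2).factorial : ℚ) = (2 * ν + 2) *
      (2 * ν + 1).factorial := by
    rw [Nat.factorial_succ (2 * ν + 1)]
    push_cast; ring
  have h5 : ((ν + 2).factorial : ℚ) = (ν + 2) * ((ν + 1) * ν.factorial) := by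
    rw [Nat.factorial_succ (ν + 1), Nat.factorial_succ ν]; push_cast; ring
  have h6 : ((ν + 1).factorial : ℚ) = ((ν + 1) * ν.factorial) := by
    rw [Nat.factorial_succ ν]; push_cast; ring
  rw [h3, h4, h5, h6]
  have a2 : (ν.factorial : ℚ) ≠ 0 := by positivity
  have a3 : ((ν : ℚ) + 1) ≠ 0 := by positivity
  have a4 : ((ν : ℚ) + 2) ≠ 0 := by positivity
  push_cast
  generalize ((2 * ν + 1).factorial : ℚ) = D
  generalize (ν.factorial : ℚ) = B at a2
  generalize ((-1 : ℚ)) ^ (ν + 1) = t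
  field_simp
  ring

theorem GH_zero (ν : ℕ) : GH ν 0 = 0 := by rw [GH]; simp

theorem full (ν : ℕ) : ∑ k ∈ range (ν + 1), sm k = 32 * ∑ k ∈ range (ν + 1), FH ν k := by
  induction ν with
  | zero => simp [sm, FH]
  | succ ν ih =>
    have h1 : ∑ k ∈ range (ν + 1), (FH (ν + 1) k - FH ν k) = GH ν (ν + 1) - GH ν 0 := by
      rw [← sum_range_sub (fun j => GH ν j)]
      refine sum_congr rfl fun k hk => ?_
      have hk' := mem_range.1 hk
      obtain ⟨s, rfl⟩ : ∃ s, ν = k + s := ⟨ν - k, by omega⟩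
      exact FG k s
    rw [sum_sub_distrib, GH_zero] at h1
    rw [sum_range_succ (fun k => sm k), sum_range_succ (fun k => FH (ν + 1) k), ih, ← top_step]
    linear_combination (-32) * h1

end Pool.Agent.R488.AZ
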