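import Mathlib
import Pool.Agent.R488.AZ.Ident

set_option autoImplicit false

/-!
Evaluation of the identities at a prime.
-/

namespace Pool.Agent.R488.AZ

open Finset Pool.Agent.R439.PL Pool.Agent.R439.PL.S4

variable {p m : ℕ} [hp : Fact p.Prime]

/-! ### Reflection of factorials and the value of the fast series -/

theorem fac_refl (s : ℕ) (hs : s < p) :
    EQ p 1 ((-1) ^ s * (p - 1 - s).factorial * (s.factorial : ℚ)) ((p - 1).factorial : ℚ) := by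
  induction s with
  | zero =>
    simp only [pow_zero, one_mul, Nat.sub_zero, Nat.factorial_zero, Nat.cast_one, mul_one]
    exact EQ.refl (nat_mem _)
  | succ s ih =>
    have ih := ih (by omega)
    obtain ⟨t, ht⟩ : ∃ t, p = s + 2 + t := ⟨p - (s + 2), by omega⟩
    have e1 : p - 1 - s = t + 1 := by omega
    have e2 : p - 1 - (s + 1) = t := by omega
    rw [e1] at ih
    rw [e2]
    refine EQ.trans ?_ ih
    have m1 : ((-1 : ℚ)) ^ (s + 1) ∈ Zp p := pow_mem (neg_mem (one_mem _)) _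
    have m2 : ((-1 : ℚ)) ^ s ∈ Zp p := pow_mem (neg_mem (one_mem _)) _
    refine ⟨mul_mem (mul_mem m1 (nat_mem _)) (nat_mem _),
      mul_mem (mul_mem m2 (nat_mem _)) (nat_mem _), ?_⟩
    refine ⟨-((-1) ^ s * t.factorial * s.factorial), neg_mem (mul_mem (mul_mem m2 (nat_mem _))
      (nat_mem _)), ?_⟩
    have h1 : (t : ℚ) = p - s - 2 := by rw [ht]; push_cast; ring
    rw [Nat.factorial_succ t, Nat.factorial_succ s, pow_succ]
    push_cast
    rw [h1]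
    ring

theorem ratio4 (hpm : p = 2 * m + 1) {j : ℕ} (hj : j < m) :
    EQ p 1 ((j.factorial : ℚ) ^ 4 / ((m + j + 1).factorial : ℚ) ^ 4)
      (((j.factorial : ℚ) * (m - 1 - j).factorial / (p - 1).factorial) ^ 4) := by
  have h1 := fac_refl (p := p) (m - 1 - j) (by omega)
  have e1 : p - 1 - (m - 1 - j) = m + j + 1 := by omega
  rw [e1] at h1
  have u1 := U_fac (p := p) (k := m + j + 1) (by omega)
  have u2 := U_fac (p := p) (k := p - 1) (by omega)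
  have h2 := (((EQ.refl (p := p) (k := 1) (mul_mem (nat_mem (p := p) j.factorial)
    (nat_mem (m - 1 - j).factorial))).div one_pos h1.symm u2)).pow 4
  refine EQ.trans (EQ.symm ?_) (EQ.symm (EQ.refl h2.1))
  have u3 := U_fac (p := p) (k := m - 1 - j) (by omega)
  refine h2.trans ?_
  have e2 : ((j.factorial : ℚ) * (m - 1 - j).factorial / ((-1) ^ (m - 1 - j) *
      (m + j + 1).factorial * (m - 1 - j).factorial)) ^ 4 =
      (j.factorial : ℚ) ^ 4 / ((m + j + 1).factorial : ℚ) ^ 4 := by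
    have a1 := u1.1
    have a3 := u3.1
    have a4 : (((-1 : ℚ)) ^ (m - 1 - j)) ^ 4 = 1 := by
      rw [← pow_mul, mul_comm, pow_mul]; norm_num
    have a5 : ((-1 : ℚ)) ^ (m - 1 - j) ≠ 0 := pow_ne_zero _ (by norm_num)
    generalize ((-1 : ℚ)) ^ (m - 1 - j) = s at a4 a5
    rw [div_pow, mul_pow, mul_pow, mul_pow, a4, one_mul, mul_div_mul_right _ _ (pow_ne_zero 4 a3)]
  rw [e2]
  refine EQ.refl ?_
  rw [← e2]
  exact h2.2.1

theorem DD_anti (hpm : p = 2 * m + 1) {j : ℕ} (hj : j < m) :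
    I p 1 (DD m j + DD m (m - 1 - j)) := by
  have h1 := ratio4 hpm hj
  have h2 := ratio4 (j := m - 1 - j) hpm (by omega)
  have e1 : m - 1 - (m - 1 - j) = j := by omega
  have e2 : m + (m - 1 - j) + 1 = 2 * m - j := by omega
  rw [e1, mul_comm ((m - 1 - j).factorial : ℚ)] at h2
  have u2 := U_fac (p := p) (k := 2 * m) (by omega)
  obtain ⟨K, hK⟩ : ∃ K : ℚ, K = (-1) ^ (m + 1) * (m.factorial : ℚ) ^ 6 / (2 * m).factorial := ⟨_, rfl⟩
  have mK : K ∈ Zp p := by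
    rw [hK, div_eq_mul_inv]
    exact mul_mem (mul_mem (pow_mem (neg_mem (one_mem _)) _) (pow_mem (nat_mem _) _)) u2.2.2
  obtain ⟨x, hx⟩ : ∃ x : ℚ, x = (j.factorial : ℚ) ^ 4 / ((m + j + 1).factorial : ℚ) ^ 4 := ⟨_, rfl⟩
  obtain ⟨y, hy⟩ : ∃ y : ℚ, y = ((m - 1 - j).factorial : ℚ) ^ 4 /
    ((m + (m - 1 - j) + 1).factorial : ℚ) ^ 4 := ⟨_, rfl⟩
  have f1 : DD m j = K * x * (m + 2 * j + 2) := by
    rw [DD, hK, hx]; ring
  have f2 : DD m (m - 1 - j) = K * y * (3 * m - 2 * j) := by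
    have : ((m - 1 - j : ℕ) : ℚ) = m - 1 - j := by
      rw [Nat.cast_sub (by omega), Nat.cast_sub (by omega)]; push_cast; ring
    rw [DD, hK, hy, this]; ring
  rw [← hx] at h1
  rw [← hy] at h2
  have h3 := (h1.trans h2.symm).2.2
  have hpq : (p : ℚ) = 2 * m + 1 := by exact_mod_cast hpm
  have e3 : DD m j + DD m (m - 1 - j) = K * (x - y) * (m + 2 * j + 2) + p * (2 * (K * y)) := by
    rw [f1, f2, hpq]; ring
  rw [e3]
  refine ((h3.mulL mK).mulR ?_).add ((I_p (p := p)).mulR (mul_mem n2 (mul_mem mK h2.1)))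
  exact add_mem (add_mem (nat_mem m) (mul_mem n2 (nat_mem j))) n2

theorem DD_sum (hpm : p = 2 * m + 1) (h3 : 3 < p) : I p 1 (∑ j ∈ range m, DD m j) := by
  have u2 := U_nat (p := p) (k := 2) (by omega) (by omega)
  refine u2.cancel ?_
  have e1 : ((2 : ℕ) : ℚ) * ∑ j ∈ range m, DD m j = ∑ j ∈ range m, (DD m j + DD m (m - 1 - j)) := by
    rw [sum_add_distrib, sum_range_reflect (fun j => DD m j)]
    push_cast; ring
  rw [e1]
  exact I.sum fun j hj => DD_anti hpm (mem_range.1 hj)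

/-- the truncated fast series modulo `p` -/
theorem TT_sum (hpm : p = 2 * m + 1) (h3 : 3 < p) : I p 1 (∑ j ∈ range m, TT j - 5 * HH m 3) := by
  have h1 := W_eq hpm
  have h2 := DD_sum hpm h3
  rw [link, apery]
  have : WW m - 2 * HH m 3 + ∑ j ∈ range m, DD m j - 5 * HH m 3 = (WW m - 7 * HH m 3) +
    ∑ j ∈ range m, DD m j := by ring
  rw [this]
  exact h1.add h2

/-! ### The full-range sum -/

def cc (p : ℕ) (k : ℕ) : ℚ := ∏ i ∈ range k, (1 + (p : ℚ) / ((i : ℚ) + 1))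

omit hp in
theorem fac_cc (k : ℕ) : ((p + k).factorial : ℚ) = p.factorial * k.factorial * cc p k := by
  induction k with
  | zero => simp [cc]
  | succ k ih =>
    rw [← add_assoc, Nat.factorial_succ, cc, prod_range_succ, ← cc, Nat.factorial_succ k]
    push_cast
    rw [ih]
    have : ((k : ℚ) + 1) ≠ 0 := by positivity
    field_simp
    ring

theorem FH_zero (hpm : p = 2 * m + 1) : FH (2 * m) 0 = (p * cc p (2 * m)) ^ 2 := by
  have e1 : 2 * (2 * m) + 1 = p + 2 * m := by omega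
  rw [FH, e1, Nat.sub_zero, add_zero, fac_cc]
  have h1 : (p.factorial : ℚ) = p * (2 * m).factorial := by
    rw [hpm, Nat.factorial_succ (2 * m)]; push_cast; ring
  have h2 : (p.factorial : ℚ) * (2 * m).factorial * cc p (2 * m) ≠ 0 := by
    rw [← fac_cc]; positivity
  rw [h1] at h2 ⊢
  have h3 : ((2 * m).factorial : ℚ) ≠ 0 := by positivity
  generalize ((2 * m).factorial : ℚ) = F at h2 h3
  generalize cc p (2 * m) = c at h2
  simp only [pow_zero, Nat.factorial_zero, Nat.cast_one, one_mul, one_pow, mul_one]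
  have h4 : c ≠ 0 := fun h => h2 (by rw [h]; ring)
  have h5 : (p : ℚ) ≠ 0 := p_ne
  field_simp

theorem FH_succ (ν k : ℕ) (hk : k ≤ 2 * ν) : FH ν (k + 1) * ((k : ℚ) + 1) ^ 3 =
    -(FH ν k * ((ν : ℚ) + 1 + k) ^ 2 * (2 * ν + 1 - k)) := by
  obtain ⟨t, ht⟩ : ∃ t, 2 * ν = k + t := ⟨2 * ν - k, by omega⟩
  have e1 : 2 * ν + 1 - (k + 1) = t := by omega
  have e2 : 2 * ν + 1 - k = t + 1 := by omega
  have e3 : (2 * (ν : ℚ) + 1 - k) = t + 1 := by
    have : ((2 * ν : ℕ) : ℚ) = ((k + t : ℕ) : ℚ) := by rw [ht]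
    push_cast at this
    linear_combination this
  rw [FH, FH, e1, e2, e3, ← add_assoc, Nat.factorial_succ (ν + k), Nat.factorial_succ k,
    Nat.factorial_succ t, pow_succ]
  have a1 : (ν.factorial : ℚ) ≠ 0 := by positivity
  have a2 : (k.factorial : ℚ) ≠ 0 := by positivity
  have a3 : (t.factorial : ℚ) ≠ 0 := by positivity
  have a4 : (k : ℚ) + 1 ≠ 0 := by positivity
  have a5 : (t : ℚ) + 1 ≠ 0 := by positivity
  push_cast
  field_simp
  ring

def prq (p k : ℕ) : ℚ := ∏ i ∈ range k, ((1 + (p : ℚ) / ((i : ℚ) + 1)) ^ 2 *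
  (1 - 2 * (p : ℚ) / ((i : ℚ) + 1)))

omit hp in
theorem FH_prq (hpm : p = 2 * m + 1) (k : ℕ) (hk : k < 2 * m) : FH (2 * m) (k + 1) =
    FH (2 * m) 0 * ((p : ℚ) ^ 2 * (1 / ((k : ℚ) + 1) ^ 2 * (prq p k * (1 - 2 * p / ((k : ℚ) + 1))))) := by
  have hpq : (p : ℚ) = 2 * m + 1 := by exact_mod_cast hpm
  induction k with
  | zero =>
    have h := FH_succ (2 * m) 0 (by omega)
    simp only [zero_add, Nat.cast_zero, one_pow, mul_one, add_zero, sub_zero] at h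
    simp only [prq, range_zero, prod_empty, zero_add, Nat.cast_zero, one_pow, div_one, one_mul]
    rw [h, hpq]
    push_cast
    ring
  | succ k ih =>
    have ih := ih (by omega)
    have h := FH_succ (2 * m) (k + 1) (by omega)
    rw [ih] at h
    have a4 : (k : ℚ) + 1 ≠ 0 := by positivity
    have a5 : (k : ℚ) + 1 + 1 ≠ 0 := by positivity
    have e1 : ((2 * m : ℕ) : ℚ) = p - 1 := by rw [hpq]; push_cast; ring
    rw [e1] at h
    rw [prq, prod_range_succ, ← prq]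
    push_cast at h ⊢
    generalize FH (2 * m) 0 = F at h ⊢
    generalize prq p k = Q at h ⊢
    apply mul_right_cancel₀ (pow_ne_zero 3 a5)
    rw [h]
    field_simp
    ring

theorem div_mem {k : ℕ} (hk : k + 1 < p) : (1 / ((k : ℚ) + 1)) ∈ Zp p := by
  have hu := U_nat (p := p) (k := k + 1) (by omega) hk
  push_cast at hu
  rw [one_div]; exact hu.2.2

theorem pdiv {k : ℕ} (hk : k + 1 < p) : I p 1 ((p : ℚ) / ((k : ℚ) + 1)) :=
  ⟨1 / ((k : ℚ) + 1), div_mem hk, by ring⟩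

theorem prq_eq {k : ℕ} (hk : k < p) : EQ p 2 (prq p k) 1 := by
  have h : EQ p 2 (prq p k) (∏ _i ∈ range k, (1 : ℚ)) := by
    refine EQ.prod fun i hi => ?_
    have hi' := mem_range.1 hi
    obtain ⟨y, hy⟩ : ∃ y : ℚ, y = 1 / ((i : ℚ) + 1) := ⟨_, rfl⟩
    have my : y ∈ Zp p := by rw [hy]; exact div_mem (by omega)
    have mp : (p : ℚ) ∈ Zp p := p_mem
    have e1 : (1 + (p : ℚ) / ((i : ℚ) + 1)) ^ 2 * (1 - 2 * (p : ℚ) / ((i : ℚ) + 1)) =
        (1 + p * y) ^ 2 * (1 - 2 * (p * y)) := by rw [hy]; ring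
    rw [e1]
    refine ⟨mul_mem (pow_mem (add_mem (one_mem _) (mul_mem mp my)) 2) (sub_mem (one_mem _)
      (mul_mem n2 (mul_mem mp my))), one_mem _, -(3 * y ^ 2) - 2 * p * y ^ 3, ?_, by ring⟩
    exact sub_mem (neg_mem (mul_mem n3 (pow_mem my 2))) (mul_mem (mul_mem n2 mp) (pow_mem my 3))
  rwa [prod_const_one] at h

/-- the sum of the terms of index at least one, divided by `p^2` and by the term of index zero -/
def YY (p m : ℕ) : ℚ := ∑ k ∈ range (2 * m), (1 / ((k : ℚ) + 1) ^ 2 *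
  (prq p k * (1 - 2 * p / ((k : ℚ) + 1))))

def ff (p k : ℕ) : ℚ := 1 / (k : ℚ) ^ 2 - 2 * p / (k : ℚ) ^ 3

theorem YY_eq (hpm : p = 2 * m + 1) : I p 2 (3 * YY p m + p * HH m 3) ∧ YY p m ∈ Zp p := by
  have h1 : EQ p 2 (YY p m) (∑ k ∈ range (2 * m), (1 / ((k : ℚ) + 1) ^ 2 *
      (1 * (1 - 2 * p / ((k : ℚ) + 1))))) := by
    refine EQ.sum fun k hk => ?_
    have hk' := mem_range.1 hk
    have md := div_mem (p := p) (k := k) (by omega)
    have m1 : 1 / ((k : ℚ) + 1) ^ 2 ∈ Zp p := by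
      have : 1 / ((k : ℚ) + 1) ^ 2 = (1 / ((k : ℚ) + 1)) ^ 2 := by rw [div_pow, one_pow]
      rw [this]; exact pow_mem md 2
    have m2 : (1 - 2 * p / ((k : ℚ) + 1)) ∈ Zp p := by
      have : (1 - 2 * p / ((k : ℚ) + 1)) = 1 - 2 * (p * (1 / ((k : ℚ) + 1))) := by ring
      rw [this]; exact sub_mem (one_mem _) (mul_mem n2 (mul_mem p_mem md))
    exact (EQ.refl m1).mul ((prq_eq (by omega)).mul (EQ.refl m2))
  refine ⟨?_, h1.1⟩
  have h2 : ∑ k ∈ range (2 * m), (1 / ((k : ℚ) + 1) ^ 2 * (1 * (1 - 2 * p / ((k : ℚ) + 1)))) =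
      ∑ k ∈ range (2 * m), ff p (k + 1) := by
    refine sum_congr rfl fun k _ => ?_
    have : (k : ℚ) + 1 ≠ 0 := by positivity
    rw [ff]
    push_cast
    field_simp
  rw [h2, split1 m (fun k => ff p k)] at h1
  have h3 : ∑ i ∈ range m, ff p (i + 1) = HH m 2 - 2 * p * HH m 3 := by
    rw [HH, HH, mul_sum, ← sum_sub_distrib]
    refine sum_congr rfl fun i _ => ?_
    rw [ff]; push_cast; ring
  have h4 : EQ p 2 (∑ i ∈ range m, ff p (2 * m + 1 - (i + 1))) (∑ i ∈ range m,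
      ((1 / ((i : ℚ) + 1) ^ 2 + 2 * p / ((i : ℚ) + 1) ^ 3) + 2 * p / ((i : ℚ) + 1) ^ 3)) := by
    refine EQ.sum fun i hi => ?_
    have hi' := mem_range.1 hi
    have a1 := S4.e3 (p := p) (k := i + 1) (by omega) (by omega)
    have a2 := S4.e2 (p := p) (k := i + 1) (by omega) (by omega)
    have a3 : ((2 * m + 1 - (i + 1) : ℕ) : ℚ) = p - ((i + 1 : ℕ) : ℚ) := by
      rw [← hpm, Nat.cast_sub (by omega)]
    have a4 : EQ p 2 (-(2 * p * (1 / ((p : ℚ) - ((i + 1 : ℕ) : ℚ)) ^ 3)))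
        (-(2 * p * (-1 / (((i + 1 : ℕ) : ℚ)) ^ 3))) := by
      refine ⟨neg_mem (mul_mem (mul_mem n2 p_mem) a2.1), neg_mem (mul_mem (mul_mem n2 p_mem) a2.2.1),
        ?_⟩
      have := ((I_p (p := p)).mul a2.2.2).mulL (neg_mem (n2 (p := p)))
      have e : -(2 * p * (1 / ((p : ℚ) - ((i + 1 : ℕ) : ℚ)) ^ 3)) -
        -(2 * p * (-1 / (((i + 1 : ℕ) : ℚ)) ^ 3)) = -2 * (p * (1 / ((p : ℚ) - ((i + 1 : ℕ) : ℚ)) ^ 3 -
          (-1 / (((i + 1 : ℕ) : ℚ)) ^ 3))) := by ring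
      rw [e]; exact this
    have a5 := a1.add a4
    have e5 : ff p (2 * m + 1 - (i + 1)) = 1 / ((p : ℚ) - ((i + 1 : ℕ) : ℚ)) ^ 2 +
        -(2 * p * (1 / ((p : ℚ) - ((i + 1 : ℕ) : ℚ)) ^ 3)) := by
      show 1 / ((2 * m + 1 - (i + 1) : ℕ) : ℚ) ^ 2 - 2 * p / ((2 * m + 1 - (i + 1) : ℕ) : ℚ) ^ 3 = _
      rw [a3]; ring
    have e6 : 1 / ((i : ℚ) + 1) ^ 2 + 2 * p / ((i : ℚ) + 1) ^ 3 + 2 * p / ((i : ℚ) + 1) ^ 3 =
        1 / (((i + 1 : ℕ) : ℚ)) ^ 2 + 2 * p / (((i + 1 : ℕ) : ℚ)) ^ 3 +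
        -(2 * p * (-1 / (((i + 1 : ℕ) : ℚ)) ^ 3)) := by push_cast; ring
    rw [e5, e6]
    exact a5
  have h5 : ∑ i ∈ range m, ((1 / ((i : ℚ) + 1) ^ 2 + 2 * p / ((i : ℚ) + 1) ^ 3) +
      2 * p / ((i : ℚ) + 1) ^ 3) = HH m 2 + 4 * p * HH m 3 := by
    rw [HH, HH, mul_sum, ← sum_add_distrib]
    exact sum_congr rfl fun i _ => by ring
  rw [h5] at h4
  rw [h3] at h1
  have h6 := H2_eq hpm
  generalize ∑ i ∈ range m, ff p (2 * m + 1 - (i + 1)) = y at h1 h4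
  have h7 := ((h1.2.2.add h4.2.2).mulL (n3 (p := p))).add h6
  have e7 : 3 * (YY p m - (HH m 2 - 2 * p * HH m 3 + y) + (y - (HH m 2 + 4 * p * HH m 3))) +
      (6 * HH m 2 + 7 * p * HH m 3) = 3 * YY p m + p * HH m 3 := by ring
  rwa [e7] at h7

end Pool.Agent.R488.AZ
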