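import Mathlib
import Pool.Agent.R488.AZ.PAdic

set_option autoImplicit false

/-!
The full-range sum and the half-range sum modulo `p^6`.
-/

namespace Pool.Agent.R488.AZ

open Finset Pool.Agent.R439.PL Pool.Agent.R439.PL.S4

variable {p m : ℕ} [hp : Fact p.Prime]

/-- first order expansion of a product -/
theorem prod_lin {ι : Type*} {s : Finset ι} {x : ι → ℚ} (h : ∀ i ∈ s, I p 2 (x i)) :
    I p 4 (∏ i ∈ s, (1 - x i) - (1 - ∑ i ∈ s, x i)) := by
  classical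
  induction s using Finset.induction_on with
  | empty => simp [I.zero]
  | insert a s ha ih =>
    have ih := ih fun i hi => h i (mem_insert_of_mem hi)
    have hS : I p 2 (∑ i ∈ s, x i) := I.sum fun i hi => h i (mem_insert_of_mem hi)
    have h1 := h a (mem_insert_self _ _)
    rw [prod_insert ha, sum_insert ha]
    have e : (1 - x a) * ∏ i ∈ s, (1 - x i) - (1 - (x a + ∑ i ∈ s, x i)) =
        (1 - x a) * (∏ i ∈ s, (1 - x i) - (1 - ∑ i ∈ s, x i)) + x a * ∑ i ∈ s, x i := by ring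
    rw [e]
    exact (ih.mulL (sub_mem (one_mem _) h1.mem)).add (h1.mul hS)

/-! ### The binomial coefficient `C(2p-1,p-1)` modulo `p^4` -/

theorem cc_pair (hpm : p = 2 * m + 1) : cc p (2 * m) =
    ∏ i ∈ range m, (1 - (-(2 * (p : ℚ) ^ 2 / (((i : ℚ) + 1) * (p - ((i : ℚ) + 1)))))) := by
  rw [cc, two_mul, prod_range_add, ← prod_range_reflect (fun x => (1 + (p : ℚ) / (((m + x : ℕ) : ℚ) + 1))),
    ← prod_mul_distrib]
  refine prod_congr rfl fun i hi => ?_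
  have hi' := mem_range.1 hi
  have h1 : ((m + (m - 1 - i) : ℕ) : ℚ) + 1 = p - ((i : ℚ) + 1) := by
    have e : m + (m - 1 - i) + 1 = p - (i + 1) := by omega
    have : ((m + (m - 1 - i) + 1 : ℕ) : ℚ) = ((p - (i + 1) : ℕ) : ℚ) := by rw [e]
    rw [Nat.cast_sub (by omega)] at this
    push_cast at this ⊢
    exact this
  rw [h1]
  have u1 := U_nat (p := p) (k := i + 1) (by omega) (by omega)
  have u2 := U_nat (p := p) (k := p - (i + 1)) (by omega) (by omega)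
  have a1 := u1.1
  have a2 := u2.1
  rw [Nat.cast_sub (by omega)] at a2
  push_cast at a1 a2
  field_simp
  ring

theorem cc_eq (hpm : p = 2 * m + 1) : I p 4 (3 * cc p (2 * m) - (3 + (p : ℚ) ^ 3 * HH m 3)) := by
  have h1 : ∀ i ∈ range m, EQ p 2 (-1 / (((i : ℚ) + 1) * (p - ((i : ℚ) + 1))))
      (1 / ((i : ℚ) + 1) ^ 2 + p / ((i : ℚ) + 1) ^ 3) := by
    intro i hi
    have hi' := mem_range.1 hi
    have := S4.e1 (p := p) (k := i + 1) (by omega) (by omega)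
    push_cast at this
    exact this
  have h2 := prod_lin (p := p) (s := range m) (x := fun i : ℕ =>
    (-(2 * (p : ℚ) ^ 2 / (((i : ℚ) + 1) * (p - ((i : ℚ) + 1)))))) (fun i hi => by
      refine ⟨2 * (-1 / (((i : ℚ) + 1) * (p - ((i : ℚ) + 1)))), mul_mem n2 (h1 i hi).1, by ring⟩)
  rw [← cc_pair hpm] at h2
  have h3 := EQ.sum h1
  have h4 : ∑ i ∈ range m, (1 / ((i : ℚ) + 1) ^ 2 + p / ((i : ℚ) + 1) ^ 3) =
      HH m 2 + p * HH m 3 := by
    rw [HH, HH, mul_sum, ← sum_add_distrib]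
    exact sum_congr rfl fun i _ => by ring
  rw [h4] at h3
  have h5 : ∑ i ∈ range m, (-(2 * (p : ℚ) ^ 2 / (((i : ℚ) + 1) * (p - ((i : ℚ) + 1))))) =
      2 * p ^ 2 * ∑ i ∈ range m, (-1 / (((i : ℚ) + 1) * (p - ((i : ℚ) + 1)))) := by
    rw [mul_sum]
    exact sum_congr rfl fun i _ => by ring
  rw [h5] at h2
  obtain ⟨S, hS⟩ : ∃ S : ℚ, S = ∑ i ∈ range m, (-1 / (((i : ℚ) + 1) * (p - ((i : ℚ) + 1)))) :=
    ⟨_, rfl⟩
  rw [← hS] at h2 h3
  have h6 := H2_eq hpm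
  have h7 : I p 2 (6 * S + p * HH m 3) := by
    have := (h3.2.2.mulL (x := (6 : ℚ)) (by exact_mod_cast nat_mem (p := p) 6)).add
      (h6.sub (I.zero (p := p)))
    have e : 6 * (S - (HH m 2 + p * HH m 3)) + (6 * HH m 2 + 7 * p * HH m 3 - 0) =
      6 * S + p * HH m 3 := by ring
    rwa [e] at this
  have h8 : I p 2 ((p : ℚ) ^ 2) := ⟨1, one_mem _, by ring⟩
  have h9 := (h8.mul h7).neg
  have h10 := (h2.mulL (n3 (p := p))).add h9
  have e : 3 * (cc p (2 * m) - (1 - 2 * p ^ 2 * S)) + -((p : ℚ) ^ 2 * (6 * S + p * HH m 3)) =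
      3 * cc p (2 * m) - (3 + (p : ℚ) ^ 3 * HH m 3) := by ring
  rwa [e] at h10

theorem cc_mem (hpm : p = 2 * m + 1) : cc p (2 * m) ∈ Zp p := by
  refine prod_mem fun i hi => ?_
  have hi' := mem_range.1 hi
  exact add_mem (one_mem _) (pdiv (by omega)).mem

/-! ### The full-range sum modulo `p^6` -/

theorem full_form (hpm : p = 2 * m + 1) : ∑ k ∈ range (2 * m + 1), sm k =
    32 * (p * cc p (2 * m)) ^ 2 * (1 + (p : ℚ) ^ 2 * YY p m) := by
  rw [full, sum_range_succ', YY, mul_sum, ← FH_zero hpm]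
  have : ∑ k ∈ range (2 * m), FH (2 * m) (k + 1) = FH (2 * m) 0 * ∑ i ∈ range (2 * m),
      (p : ℚ) ^ 2 * (1 / ((i : ℚ) + 1) ^ 2 * (prq p i * (1 - 2 * p / ((i : ℚ) + 1)))) := by
    rw [mul_sum]
    exact sum_congr rfl fun k hk => FH_prq hpm k (mem_range.1 hk)
  rw [this]
  ring

theorem full_mod (hpm : p = 2 * m + 1) : I p 6 (27 * ∑ k ∈ range (2 * m + 1), sm k -
    32 * (p : ℚ) ^ 2 * (27 + 9 * (p : ℚ) ^ 3 * HH m 3)) := by
  obtain ⟨y1, y2⟩ := YY_eq hpm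
  have h1 := cc_eq hpm
  have hc := cc_mem hpm
  have hH := HH_mem hpm 3
  have hp2 : I p 2 ((p : ℚ) ^ 2) := ⟨1, one_mem _, by ring⟩
  have hp4 : I p 4 ((p : ℚ) ^ 4) := ⟨1, one_mem _, by ring⟩
  rw [full_form hpm]
  generalize cc p (2 * m) = c at h1 hc ⊢
  generalize YY p m = Y at y1 y2 ⊢
  generalize HH m 3 = H at h1 y1 hH ⊢
  have n32 : (32 : ℚ) ∈ Zp p := by exact_mod_cast nat_mem (p := p) 32
  have hpp : (p : ℚ) ∈ Zp p := p_mem
  -- `a = 3 c`, `b = 3 (1 + p^2 Y)`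
  have hb : I p 4 (3 * (1 + (p : ℚ) ^ 2 * Y) - (3 - (p : ℚ) ^ 3 * H)) := by
    have := hp2.mul y1
    have e : (p : ℚ) ^ 2 * (3 * Y + p * H) = 3 * (1 + (p : ℚ) ^ 2 * Y) - (3 - (p : ℚ) ^ 3 * H) := by
      ring
    rwa [e] at this
  have mc3 : 3 * c ∈ Zp p := mul_mem n3 hc
  have mA : 3 + (p : ℚ) ^ 3 * H ∈ Zp p := add_mem n3 (mul_mem (pow_mem hpp 3) hH)
  have mB : 3 - (p : ℚ) ^ 3 * H ∈ Zp p := sub_mem n3 (mul_mem (pow_mem hpp 3) hH)
  have mb : 3 * (1 + (p : ℚ) ^ 2 * Y) ∈ Zp p := mul_mem n3 (add_mem (one_mem _)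
    (mul_mem (pow_mem hpp 2) y2))
  have q1 : EQ p 4 (3 * c) (3 + (p : ℚ) ^ 3 * H) := ⟨mc3, mA, h1⟩
  have q2 : EQ p 4 (3 * (1 + (p : ℚ) ^ 2 * Y)) (3 - (p : ℚ) ^ 3 * H) := ⟨mb, mB, hb⟩
  have q3 := ((q1.pow 2).mul q2).2.2
  have q4 : I p 4 ((3 + (p : ℚ) ^ 3 * H) ^ 2 * (3 - (p : ℚ) ^ 3 * H) -
      (27 + 9 * (p : ℚ) ^ 3 * H)) := by
    have : (3 + (p : ℚ) ^ 3 * H) ^ 2 * (3 - (p : ℚ) ^ 3 * H) - (27 + 9 * (p : ℚ) ^ 3 * H) =
      (p : ℚ) ^ 4 * (-(3 * (p ^ 2 * H ^ 2)) - p ^ 5 * H ^ 3) := by ring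
    rw [this]
    refine hp4.mulR (sub_mem (neg_mem (mul_mem n3 (mul_mem (pow_mem hpp 2) (pow_mem hH 2))))
      (mul_mem (pow_mem hpp 5) (pow_mem hH 3)))
  have q5 := (hp2.mul (q3.add q4)).mulL n32
  have e : 32 * ((p : ℚ) ^ 2 * ((3 * c) ^ 2 * (3 * (1 + (p : ℚ) ^ 2 * Y)) -
      (3 + (p : ℚ) ^ 3 * H) ^ 2 * (3 - (p : ℚ) ^ 3 * H) + ((3 + (p : ℚ) ^ 3 * H) ^ 2 *
      (3 - (p : ℚ) ^ 3 * H) - (27 + 9 * (p : ℚ) ^ 3 * H)))) =
      27 * (32 * (p * c) ^ 2 * (1 + (p : ℚ) ^ 2 * Y)) -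
      32 * (p : ℚ) ^ 2 * (27 + 9 * (p : ℚ) ^ 3 * H) := by ring
  rwa [e] at q5

/-! ### The upper half of the sum -/

def cb (k : ℕ) : ℚ := ((2 * k).choose k : ℚ)

theorem cb_rec (k : ℕ) : ((k : ℚ) + 1) * cb (k + 1) = 2 * (2 * k + 1) * cb k := by
  have := Nat.succ_mul_centralBinom_succ k
  rw [Nat.centralBinom, Nat.centralBinom] at this
  have h : (((k + 1) * (2 * (k + 1)).choose (k + 1) : ℕ) : ℚ) =
    ((2 * (2 * k + 1) * (2 * k).choose k : ℕ) : ℚ) := by rw [this]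
  push_cast at h
  exact h

theorem cb_fac (k : ℕ) : cb k = (2 * k).factorial / (k.factorial : ℚ) ^ 2 := choose_fac k

theorem cb_ne (k : ℕ) : cb k ≠ 0 := by
  rw [cb_fac]; positivity

theorem XX_eq (hpm : p = 2 * m + 1) (h3 : 3 < p) (j : ℕ) (hj : j < m) :
    EQ p 1 (cb (p - (j + 1)) / p) (-2 / (((j : ℚ) + 1) * cb (j + 1))) := by
  have hpq : (p : ℚ) = 2 * m + 1 := by exact_mod_cast hpm
  induction j with
  | zero =>
    have e1 : p - (0 + 1) = 2 * m := by omega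
    have h1 : cb (2 * m) / p = 1 / (2 * m) * cc p (2 * m - 1) := by
      have f1 : 2 * (2 * m) = p + (2 * m - 1) := by omega
      have f2 : (p.factorial : ℚ) = p * (2 * m).factorial := by
        rw [hpm, Nat.factorial_succ (2 * m)]; push_cast; ring
      obtain ⟨t, ht⟩ : ∃ t, 2 * m = t + 1 := ⟨2 * m - 1, by omega⟩
      have f3 : 2 * m - 1 = t := by omega
      have f4 : ((2 * m).factorial : ℚ) = (2 * m) * t.factorial := by
        have : ((2 * m : ℕ) : ℚ) = ((t + 1 : ℕ) : ℚ) := by rw [ht]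
        push_cast at this
        rw [ht, Nat.factorial_succ, this]; push_cast; ring
      rw [cb_fac, f1, fac_cc, f2, f3, f4]
      have a1 : (t.factorial : ℚ) ≠ 0 := by positivity
      have a2 : (m : ℚ) ≠ 0 := by
        have : 0 < m := hj
        positivity
      have a3 : (p : ℚ) ≠ 0 := p_ne
      field_simp
    rw [e1, h1]
    have h2 : EQ p 1 (cc p (2 * m - 1)) (∏ _i ∈ range (2 * m - 1), (1 : ℚ)) := by
      refine EQ.prod fun i hi => ?_
      have hi' := mem_range.1 hi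
      have hd := pdiv (p := p) (k := i) (by omega)
      refine ⟨add_mem (one_mem _) hd.mem, one_mem _, ?_⟩
      rw [add_sub_cancel_left]; exact hd
    rw [prod_const_one] at h2
    have u1 := U_nat (p := p) (k := 2 * m) (by omega) (by omega)
    push_cast at u1
    have h4 : EQ p 1 (1 / (2 * (m : ℚ))) (-1) := by
      refine ⟨by rw [one_div]; exact u1.2.2, neg_mem (one_mem _), (2 * (m : ℚ))⁻¹, u1.2.2, ?_⟩
      have := u1.1
      rw [hpq]
      field_simp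
      ring
    have h5 := h4.mul h2
    have e5 : -2 / ((((0 : ℕ) : ℚ) + 1) * cb (0 + 1)) = -1 * 1 := by
      have : cb (0 + 1) = 2 := by simp [cb]
      rw [this]; norm_num
    rw [e5]
    exact h5
  | succ j ih =>
    have ih := ih (by omega)
    have g1 := cb_rec (p - (j + 2))
    have g2 := cb_rec (j + 1)
    have e1 : p - (j + 2) + 1 = p - (j + 1) := by omega
    have e2 : p - (j + 1 + 1) = p - (j + 2) := by omega
    have e3 : ((p - (j + 2) : ℕ) : ℚ) = p - (j + 2) := by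
      rw [Nat.cast_sub (by omega)]; push_cast; ring
    rw [e1, e3] at g1
    rw [e2]
    have u1 := U_nat (p := p) (k := 2 * j + 3) (by omega) (by omega)
    have u2 := U_nat' (p := p) (k := 2 * p - (2 * j + 3)) (by
      intro h
      have h' : p ∣ 2 * p - (2 * p - (2 * j + 3)) := Nat.dvd_sub (dvd_mul_left p 2) h
      have : 2 * p - (2 * p - (2 * j + 3)) = 2 * j + 3 := by omega
      rw [this] at h'
      have := Nat.le_of_dvd (by omega) h'
      omega)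
    have u3 := U_nat (p := p) (k := 2) (by omega) (by omega)
    rw [Nat.cast_sub (by omega)] at u2
    push_cast at u1 u2 u3
    -- the recursion of both sides
    have k1 : cb (p - (j + 2)) / p = cb (p - (j + 1)) / p *
        (((p : ℚ) - (j + 1)) / (2 * (2 * p - (2 * j + 3)))) := by
      have a1 := u2.1
      have a2 : (p : ℚ) ≠ 0 := p_ne
      obtain ⟨w, hw⟩ : ∃ w : ℚ, w = 2 * p - (2 * j + 3) := ⟨_, rfl⟩
      rw [← hw] at a1 ⊢
      have g3 : ((p : ℚ) - (j + 1)) * cb (p - (j + 1)) = 2 * w * cb (p - (j + 2)) := by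
        rw [hw]; linear_combination g1
      field_simp
      linear_combination (-1) * g3
    have k2 : -2 / ((((j + 1 : ℕ) : ℚ) + 1) * cb (j + 1 + 1)) = -2 / (((j : ℚ) + 1) * cb (j + 1)) *
        (((j : ℚ) + 1) / (2 * (2 * j + 3))) := by
      have a1 := cb_ne (j + 1)
      have a2 := u1.1
      have a3 : (j : ℚ) + 1 ≠ 0 := by positivity
      push_cast at g2 ⊢
      rw [g2]
      have a4 : (2 * ((j : ℚ) + 1) + 1) ≠ 0 := by positivity
      field_simp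
      ring
    rw [k1, k2, ← neg_div_neg_eq ((j : ℚ) + 1)]
    have mj : (j : ℚ) + 1 ∈ Zp p := add_mem (nat_mem j) (one_mem _)
    refine ih.mul (EQ.div one_pos ?_ ?_ (u3.mul u2))
    · refine ⟨sub_mem p_mem mj, neg_mem mj, 1, one_mem _, by ring⟩
    · refine ⟨(u3.mul u2).2.1, neg_mem (u3.mul u1).2.1, 4, ?_, by ring⟩
      exact_mod_cast nat_mem (p := p) 4

/-- the terms of the upper half -/
theorem tail_term (hpm : p = 2 * m + 1) (h3 : 3 < p) {j : ℕ} (hj : j < m) :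
    I p 6 (sm (p - (j + 1)) - 32 * (p : ℚ) ^ 5 * TT j) := by
  have h1 := (XX_eq hpm h3 j hj).pow 5
  have e1 : ((p - (j + 1) : ℕ) : ℚ) = p - (j + 1) := by
    rw [Nat.cast_sub (by omega)]; push_cast; ring
  have e2 : ((-1 : ℚ)) ^ (p - (j + 1)) = (-1) ^ j := by
    have : p - (j + 1) + j = 2 * m := by omega
    have h : ((-1 : ℚ)) ^ (p - (j + 1)) * (-1) ^ j = 1 := by
      rw [← pow_add, this, pow_mul]; norm_num
    rcases neg_one_pow_eq_or ℚ j with h' | h' <;> rw [h'] at h ⊢ <;> linarith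
  have e3 : sm (p - (j + 1)) = (p : ℚ) ^ 5 * ((205 * ((p : ℚ) - (j + 1)) ^ 2 +
      160 * (p - (j + 1)) + 32) * (-1) ^ j * (cb (p - (j + 1)) / p) ^ 5) := by
    rw [sm, ← cb, e1, e2]
    have : (p : ℚ) ≠ 0 := p_ne
    field_simp
  have e4 : 32 * (p : ℚ) ^ 5 * TT j = (p : ℚ) ^ 5 * ((205 * ((j : ℚ) + 1) ^ 2 -
      160 * (j + 1) + 32) * (-1) ^ j * (-2 / (((j : ℚ) + 1) * cb (j + 1))) ^ 5) := by
    rw [TT, cb_fac, show 2 * (j + 1) = 2 * j + 2 by ring, pow_succ (-1 : ℚ) j]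
    have a1 : ((2 * j + 2).factorial : ℚ) ≠ 0 := by positivity
    have a2 : ((j + 1).factorial : ℚ) ≠ 0 := by positivity
    have a3 : (j : ℚ) + 1 ≠ 0 := by positivity
    field_simp
    ring
  have n205 : (205 : ℚ) ∈ Zp p := by exact_mod_cast nat_mem (p := p) 205
  have n160 : (160 : ℚ) ∈ Zp p := by exact_mod_cast nat_mem (p := p) 160
  have n32 : (32 : ℚ) ∈ Zp p := by exact_mod_cast nat_mem (p := p) 32
  have mj : (j : ℚ) + 1 ∈ Zp p := add_mem (nat_mem j) (one_mem _)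
  have ms : ((-1 : ℚ)) ^ j ∈ Zp p := pow_mem (neg_mem (one_mem _)) _
  have h2 : EQ p 1 (205 * ((p : ℚ) - (j + 1)) ^ 2 + 160 * (p - (j + 1)) + 32)
      (205 * ((j : ℚ) + 1) ^ 2 - 160 * (j + 1) + 32) := by
    refine ⟨add_mem (add_mem (mul_mem n205 (pow_mem (sub_mem p_mem mj) 2)) (mul_mem n160
      (sub_mem p_mem mj))) n32, add_mem (sub_mem (mul_mem n205 (pow_mem mj 2)) (mul_mem n160 mj)) n32,
      205 * (p - 2 * (j + 1)) + 160, ?_, by ring⟩
    exact add_mem (mul_mem n205 (sub_mem p_mem (mul_mem n2 mj))) n160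
  have h4 := ((h2.mul (EQ.refl ms)).mul h1).2.2
  have hp5 : I p 5 ((p : ℚ) ^ 5) := ⟨1, one_mem _, by ring⟩
  rw [e3, e4, ← mul_sub]
  exact hp5.mul h4

/-- **the half-range sum modulo `p^6`** -/
theorem half (hpm : p = 2 * m + 1) (h3 : 3 < p) : I p 6 (∑ k ∈ range (m + 1), sm k -
    (32 * (p : ℚ) ^ 2 + 896 / 3 * (p : ℚ) ^ 5 * bernoulli (p - 3))) := by
  have s1 : ∑ k ∈ range (2 * m + 1), sm k = ∑ k ∈ range (m + 1), sm k +
      ∑ j ∈ range m, sm (p - (j + 1)) := by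
    rw [sum_range_succ', sum_range_succ', split1 m (fun k => sm k), ← hpm]
    ring
  have h1 := full_mod hpm
  have h2 : I p 6 (∑ j ∈ range m, sm (p - (j + 1)) - 32 * (p : ℚ) ^ 5 * ∑ j ∈ range m, TT j) := by
    rw [mul_sum, ← sum_sub_distrib]
    exact I.sum fun j hj => tail_term hpm h3 (mem_range.1 hj)
  have h4 := TT_sum hpm h3
  have h5 := H3_eq hpm h3
  have hp5 : I p 5 ((p : ℚ) ^ 5) := ⟨1, one_mem _, by ring⟩
  rw [s1] at h1
  generalize ∑ k ∈ range (m + 1), sm k = S at h1 ⊢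
  generalize ∑ j ∈ range m, sm (p - (j + 1)) = T at h1 h2
  generalize ∑ j ∈ range m, TT j = V at h2 h4
  generalize HH m 3 = H at h1 h4 h5
  generalize bernoulli (p - 3) = B at h5 ⊢
  have n27 : (27 : ℚ) ∈ Zp p := by exact_mod_cast nat_mem (p := p) 27
  have n864 : (864 : ℚ) ∈ Zp p := by exact_mod_cast nat_mem (p := p) 864
  have n4032 : (4032 : ℚ) ∈ Zp p := by exact_mod_cast nat_mem (p := p) 4032
  have h6 := ((h1.sub (h2.mulL n27)).sub ((hp5.mul h4).mulL n864)).sub ((hp5.mul h5).mulL n4032)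
  have e : 27 * (S + T) - 32 * (p : ℚ) ^ 2 * (27 + 9 * (p : ℚ) ^ 3 * H) -
      27 * (T - 32 * (p : ℚ) ^ 5 * V) - 864 * ((p : ℚ) ^ 5 * (V - 5 * H)) -
      4032 * ((p : ℚ) ^ 5 * (H + 2 * B)) =
      ((27 : ℕ) : ℚ) * (S - (32 * (p : ℚ) ^ 2 + 896 / 3 * (p : ℚ) ^ 5 * B)) := by
    push_cast; ring
  rw [e] at h6
  have u27 : U p ((27 : ℕ) : ℚ) := U_nat' fun h => by
    have : p ∣ 3 ^ 3 := h
    have := (Nat.prime_dvd_prime_iff_eq hp.out Nat.prime_three).1 (hp.out.dvd_of_dvd_pow this)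
    omega
  exact u27.cancel h6

end Pool.Agent.R488.AZ
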